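import Pool.Agent.H656R2.OB.Game
import Pool.Agent.Helper292.ForceCH

/-!
Under the continuum hypothesis, which can be forced, there is an `o`-bounded subgroup of the
Baer-Specker group on which player I has a winning strategy in the Open-Finite game.
-/

namespace Pool.Agent.Results.MP_b00c97_gt.ConsistentExample

open Set Pool.Agent.Results.MP_b00c97_gt.Square

/-- (1) The continuum hypothesis can be forced, with `ω₁` preserved. (2) Under the continuum
hypothesis there is a subgroup `S` of the product `ℕ → ℤ` of countably many copies of the discrete
group of the integers (here written multiplicatively, with the subspace topology) which is a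
metrizable topological group, is `o`-bounded, and such that player I has a winning strategy in the
game `OF(S)`. -/
theorem result :
    (∃ (P : Type) (_ : Preorder P), Nonempty P ∧ ∀ p : P,
      p ∈ Pool.Agent.Helper292.ForceCH.OmegaOnePreserved P ∧
      p ∈ Pool.Agent.Helper292.ForceCH.CHHolds P) ∧
    (Cardinal.aleph 1 = Cardinal.continuum.{0} →
      ∃ S : AddSubgroup (ℕ → ℤ),
        IsTopologicalGroup (Multiplicative S) ∧
        TopologicalSpace.MetrizableSpace (Multiplicative S) ∧
        OBounded (univ : Set (Multiplicative S)) ∧
        PlayerIWins (univ : Set (Multiplicative S))) := by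
  refine ⟨?_, ?_⟩
  · obtain ⟨P, i, h1, h2⟩ := Pool.Agent.Helper292.ForceCH.exists_forcing
    exact ⟨P, i, h1, fun p => ⟨(h2 p).1, (h2 p).2.2⟩⟩
  · intro hCH
    obtain ⟨S, h1, h2, h3⟩ := Pool.Agent.H656R2.OB.exists_group hCH
    exact ⟨S.toAddSubgroup, inferInstance,
      (inferInstance : TopologicalSpace.MetrizableSpace (Pool.Agent.H656R2.OB.Gp S)),
      Pool.Agent.H656R2.OB.obounded S h1, Pool.Agent.H656R2.OB.playerI S h2 h3⟩

end Pool.Agent.Results.MP_b00c97_gt.ConsistentExample
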